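import Pool.Agent.RAT.U.Five
import Pool.Agent.HHP.Geo

/-!
(U4), first half: half-plane walks as words; cutting a half-plane word at its last renewal level.
-/

namespace Pool.Agent.RAT

open Pool.Agent.Hhelper14.SAW Pool.Agent.HHP Pool.Agent.HEP

/-- The half plane as a domain for the exploration of walks. -/
lemma half_dom : Dom (fun z => hon z ∧ 0 ≤ F0 z) := by
  refine ⟨by decide, fun x h => h.1, ?_⟩
  rintro x ⟨h1, h2⟩ ⟨h3, h4⟩
  simp only [F0] at h2
  omega

/-- Every half-plane walk comes from a word. -/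
lemma exists_word {n : ℕ} {P : List (ℤ × ℤ)} (h : P ∈ W true n) :
    ∃ w : List Bool, Hw w ∧ w.length = n ∧ (V w).reverse = P := by
  obtain ⟨hP, hD⟩ := h
  have hhon := hon_of_walk hP
  obtain ⟨h1, h2, h3, h4⟩ := hP
  have hD' : ∀ z ∈ P, 0 ≤ F0 z := fun z hz => hD z hz rfl
  have hlast : P = P.dropLast ++ [o] := by
    have hne : P ≠ [] := by rintro rfl; simp at h1
    rw [List.getLast?_eq_getLast_of_ne_nil hne, Option.some.injEq] at h4
    conv_lhs => rw [← List.dropLast_append_getLast hne, h4]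
  have ho' : o' ∉ P := by
    intro h
    have := hD' _ h
    simp [F0, o'] at this
  have hsaw : IsSaw (fun z => hon z ∧ 0 ≤ F0 z) n (P ++ [o']) := by
    refine ⟨by simp [h1], ?_, ?_, P.dropLast, ?_, ?_⟩
    · rw [List.nodup_append]
      refine ⟨h2, by simp, ?_⟩
      intro a ha b hb hab
      rw [List.mem_singleton] at hb
      rw [hab, hb] at ha
      exact ho' ha
    · unfold HChain at h3 ⊢
      rw [List.isChain_append]
      refine ⟨h3, List.isChain_singleton _, ?_⟩
      intro x hx y hy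
      rw [h4] at hx
      simp at hx hy
      rw [← hx, ← hy]
      refine ⟨by decide, by decide, ?_⟩
      simp [U, o, o']
    · conv_lhs => rw [hlast]
      simp
    · rw [← hlast]
      exact fun x hx => ⟨hhon x hx, hD' x hx⟩
  obtain ⟨w, hw1, hw2, hw3, hw4⟩ := toL_surj half_dom hsaw
  refine ⟨w, ⟨hw2, fun z hz => (hw3 z hz).2⟩, hw1, ?_⟩
  unfold toL at hw4
  exact List.append_cancel_right hw4

lemma Hws_finite (n : ℕ) : {w : List Bool | Hw w ∧ w.length = n}.Finite := (len_fin n).subset fun _ h => h.2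

lemma cn_eq_ncard (b : Bool) (n : ℕ) : cn b n = (W b n).ncard := by
  unfold cn WF
  rw [← Set.ncard_eq_toFinset_card _ (W_finite b n)]

theorem cn_le_hw (n : ℕ) : cn true n ≤ hw n := by
  have key : W true n ⊆ (fun w => (V w).reverse) '' {w : List Bool | Hw w ∧ w.length = n} := by
    intro P hP
    obtain ⟨w, h1, h2, h3⟩ := exists_word hP
    exact ⟨w, ⟨h1, h2⟩, h3⟩
  rw [cn_eq_ncard]
  exact (Set.ncard_le_ncard key ((Hws_finite n).image _)).trans (Set.ncard_image_le (Hws_finite n))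

/-- A half-plane word lies in finitely many columns. -/
lemma Hw.in {w : List Bool} (h : Hw w) : ∃ n, In n w := by
  obtain ⟨M, hM⟩ : ∃ M : ℕ, ∀ z ∈ V w, F0 z ≤ M := by
    generalize V w = l
    induction l with
    | nil => exact ⟨0, by simp⟩
    | cons a l ih =>
      obtain ⟨M, hM⟩ := ih
      refine ⟨max M (F0 a).toNat, ?_⟩
      intro z hz
      rcases List.mem_cons.1 hz with rfl | hz
      · have := Int.self_le_toNat (F0 z)
        push_cast
        exact this.trans (le_max_right _ _)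
      · have := hM z hz
        push_cast
        exact this.trans (le_max_left _ _)
  refine ⟨M, h.1, fun z hz => ⟨h.2 z hz, ?_⟩⟩
  have := hM z hz
  omega

/-- Half-plane words without renewal level. -/
def Qs (n : ℕ) : Set (List Bool) := {w | (Hw w ∧ ∀ i, 1 ≤ i → ¬ Ren i w) ∧ w.length = n}

lemma Qs_finite (n : ℕ) : (Qs n).Finite := (len_fin n).subset fun _ h => h.2

lemma qi_eq (n : ℕ) : qi n = (Qs n).ncard := rfl

/-- Cut at the last renewal level. -/
lemma last_cut {w : List Bool} (h : Hw w) : (∀ i, 1 ≤ i → ¬ Ren i w) ∨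
    ∃ k P Q, w = P ++ rt P :: Q ∧ Br k P ∧ Hw Q ∧ ∀ i, 1 ≤ i → ¬ Ren i Q := by
  classical
  obtain ⟨n, hn⟩ := h.in
  have hle : ∀ i, 1 ≤ i → Ren i w → i ≤ n := by
    rintro i hi ⟨P, b, Q, rfl, h1, h2⟩
    have hm : E P + tn b (Dr P) ∈ V (P ++ b :: Q) := by
      rw [V_append]
      exact List.mem_append_right _ (head_mem _ _ _)
    have h3 := (hn.2 _ hm).2
    have h4 := h2 _ (head_mem _ _ _)
    omega
  by_cases hr : ∃ i, 1 ≤ i ∧ Ren i w
  · right
    obtain ⟨i0, hi0, hri0⟩ := hr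
    set m := Nat.findGreatest (fun i => 1 ≤ i ∧ Ren i w) n with hm
    have hspec : 1 ≤ m ∧ Ren m w :=
      Nat.findGreatest_spec (P := fun i => 1 ≤ i ∧ Ren i w) (hle i0 hi0 hri0) ⟨hi0, hri0⟩
    obtain ⟨P, Q, rfl, hP, hQ⟩ := ren_split hn hspec.1 (hle m hspec.1 hspec.2) hspec.2
    refine ⟨m - 1, P, Q, rfl, hP, ⟨hQ.1, fun z hz => (hQ.2 z hz).1⟩, ?_⟩
    intro j hj hrj
    have h5 := (ren_high hP hQ hj).2 hrj
    have h6 : m - 1 + 1 + j = m + j := by omega
    rw [h6] at h5
    have h7 : m + j ≤ m := Nat.le_findGreatest (P := fun i => 1 ≤ i ∧ Ren i (P ++ rt P :: Q))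
      (hle _ (by omega) h5) ⟨by omega, h5⟩
    omega
  · left
    intro i hi hri
    exact hr ⟨i, hi, hri⟩

/-- (4) for words. -/
theorem hw_le (n : ℕ) : hw n ≤ ∑ p ∈ Finset.HasAntidiagonal.antidiagonal n, qi p.1 * be p.2 := by
  classical
  have key : {w : List Bool | Hw w ∧ w.length = n} ⊆ ⋃ p ∈ Finset.HasAntidiagonal.antidiagonal n,
      (fun q : List Bool × List Bool => if q.2 = [] then q.1 else q.2 ++ rt q.2 :: q.1) '' (Qs p.1 ×ˢ Bs p.2) := by
    rintro w ⟨hw, hlen⟩
    simp only [Set.mem_iUnion, Set.mem_image, Finset.HasAntidiagonal.mem_antidiagonal]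
    rcases last_cut hw with h | ⟨k, P, Q, rfl, hP, hQ, hQr⟩
    · exact ⟨(n, 0), by simp, (w, []), ⟨⟨⟨hw, h⟩, hlen⟩, by simp [Bs]⟩, by simp⟩
    · have hne : P ≠ [] := by
        rintro rfl
        exact not_Br_nil _ hP
      have hL : P.length + (Q.length + 1) = n := by rw [← hlen]; simp
      refine ⟨(Q.length, P.length + 1), by simp only; omega, (Q, P), ⟨⟨⟨hQ, hQr⟩, rfl⟩, ?_⟩, by simp [hne]⟩
      unfold Bs
      rw [if_neg (by simp)]
      exact ⟨⟨k, hP⟩, rfl⟩
  have hf : ∀ p ∈ Finset.HasAntidiagonal.antidiagonal n,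
      ((fun q : List Bool × List Bool => if q.2 = [] then q.1 else q.2 ++ rt q.2 :: q.1) '' (Qs p.1 ×ˢ Bs p.2)).Finite :=
    fun p _ => ((Qs_finite _).prod (Bs_finite _)).image _
  change ({w : List Bool | Hw w ∧ w.length = n}).ncard ≤ _
  refine (Set.ncard_le_ncard key (Set.Finite.biUnion (Finset.finite_toSet _) hf)).trans ?_
  refine (Finset.set_ncard_biUnion_le _ _).trans (Finset.sum_le_sum fun p _ => ?_)
  rw [qi_eq, be_eq, ← Set.ncard_prod]
  exact Set.ncard_image_le ((Qs_finite _).prod (Bs_finite _))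

/-- (4) -/
theorem cn_le_dec (n : ℕ) : cn true n ≤ ∑ p ∈ Finset.HasAntidiagonal.antidiagonal n, qi p.1 * be p.2 :=
  (cn_le_hw n).trans (hw_le n)

end Pool.Agent.RAT
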