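import Pool.Agent.RAT.G.Defs
import Pool.Agent.HEP.GDef

/-!
RAT, half plane: numbers of bridges, irreducible bridges, half-plane words, half-plane words without renewal level.

Words as in `HHP/Defs`: `Br k W` = bridges of `k + 1` columns, `Irr W` = irreducible bridges, `Ren i W` = renewal at the
line between the columns `i - 1` and `i`. A word `W` has `W.length` steps and `W.length + 1` vertices.
-/

namespace Pool.Agent.RAT

open Pool.Agent.Hhelper14.SAW Pool.Agent.HHP Pool.Agent.HEP

/-- Words of walks of the half plane `0 ≤ F0`. -/
def Hw (W : List Bool) : Prop := (V W).Nodup ∧ ∀ z ∈ V W, 0 ≤ F0 z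

/-- The number of half-plane words with `n` steps (`= cn true n`). -/
noncomputable def hw (n : ℕ) : ℕ := Nat.card {W : List Bool // Hw W ∧ W.length = n}

/-- The number of half-plane words with `n` steps without renewal level. -/
noncomputable def qi (n : ℕ) : ℕ := Nat.card {W : List Bool // (Hw W ∧ ∀ i, 1 ≤ i → ¬ Ren i W) ∧ W.length = n}

/-- The number of bridges (of any number of columns) with `n` vertices; `1` for `n = 0` (the empty bridge). -/
noncomputable def be (n : ℕ) : ℕ := if n = 0 then 1 else Nat.card {W : List Bool // (∃ k, Br k W) ∧ W.length + 1 = n}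

/-- The number of irreducible bridges with `n` vertices. -/
noncomputable def io (n : ℕ) : ℕ := Nat.card {W : List Bool // Irr W ∧ W.length + 1 = n}

end Pool.Agent.RAT
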