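import Pool.Agent.RAT.D.Cut2
import Pool.Agent.RAT.U.BDefs
import Pool.Agent.RAT.H.Words

/-!
RAT, half plane: a half-plane walk without cut line and a half-plane walk, glued along a cut line.
Lists: latest vertex first. Column `k` = vertices with `F0 z = 3 k` or `3 k + 1`.
-/

namespace Pool.Agent.RAT

open Pool.Agent.Hhelper14.SAW Pool.Agent.HHP

/-- The line between the columns `k - 1` and `k` separates the earlier piece `u` from the later piece `v`. -/
def CutAt (k : ℤ) (v u : List (ℤ × ℤ)) : Prop :=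
  v ≠ [] ∧ u ≠ [] ∧ (∀ z ∈ u, F0 z < 3 * k) ∧ ∀ z ∈ v, 3 * k ≤ F0 z

/-- No line between two columns is crossed exactly once. -/
def NoCut (P : List (ℤ × ℤ)) : Prop := ∀ k v u, P = v ++ u → ¬ CutAt k v u

/-- Half-plane walks with `n` steps without cut line. -/
def QS (n : ℕ) : Set (List (ℤ × ℤ)) := {P | P ∈ W true n ∧ NoCut P}

lemma QS_finite (n : ℕ) : (QS n).Finite := (W_finite true n).subset fun _ h => h.1

/-- The point reflection which exchanges `o` and `(-1, 0)`. -/
def sg (z : ℤ × ℤ) : ℤ × ℤ := (-1 - z.1, -z.2)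

lemma sg_sg (z : ℤ × ℤ) : sg (sg z) = z := by
  unfold sg; ext <;> simp

lemma sg_inj : Function.Injective sg := fun x y h => by rw [← sg_sg x, h, sg_sg]

lemma F0_sg (z : ℤ × ℤ) : F0 (sg z) = -2 - F0 z := by
  simp only [F0, sg]; ring

lemma F0_add (z w : ℤ × ℤ) : F0 (z + w) = F0 z + F0 w := by
  simp only [F0, Prod.fst_add, Prod.snd_add]; ring

lemma hon_sg {z : ℤ × ℤ} (h : hon z) : hon (sg z) := by
  simp only [hon, sg] at *; omega

lemma sg_adj {x y : ℤ × ℤ} (h : Adj x y) : Adj (sg y) (sg x) := by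
  obtain ⟨x1, x2⟩ := x
  obtain ⟨y1, y2⟩ := y
  obtain ⟨h1, h2, h3⟩ := h
  refine ⟨hon_sg h2, hon_sg h1, ?_⟩
  simp only [U, sg, Prod.mk_sub_mk] at h3 ⊢
  omega

/-- The glued walk: first `P` reflected and reversed, then `Q`. -/
def om (P Q : List (ℤ × ℤ)) : List (ℤ × ℤ) := Q ++ (P.map sg).reverse

/-- Its start. -/
def stv (P : List (ℤ × ℤ)) : ℤ × ℤ := sg P.headI

/-- The glued walk moved to `o`. -/
def omt (P Q : List (ℤ × ℤ)) : List (ℤ × ℤ) := (om P Q).map (tw (stv P))

lemma om_walk {k l : ℕ} {P Q : List (ℤ × ℤ)} (hP : P ∈ W true k) (hQ : Q ∈ W true l) :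
    IsWalk (k + l + 1) (omt P Q) ∧ hon (stv P) := by
  have hPne : P ≠ [] := by
    rintro rfl
    have := hP.1.1
    simp at this
  obtain ⟨p, P0, rfl⟩ := List.exists_cons_of_ne_nil hPne
  have hst : stv (p :: P0) = sg p := rfl
  have hon1 : hon (stv (p :: P0)) := by
    rw [hst]
    exact hon_sg (hon_of_walk hP.1 p (by simp))
  refine ⟨?_, hon1⟩
  have e : k + l + 1 + 1 = (l + 1) + (k + 1) := by ring
  refine isWalk_map_tw (i := k + l + 1) hon1 ?_ ?_ ?_ ?_
  · unfold om
    rw [List.length_append, List.length_reverse, List.length_map, hP.1.1, hQ.1.1, e]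
  · unfold om
    rw [List.nodup_append]
    refine ⟨hQ.1.2.1, List.nodup_reverse.2 (hP.1.2.1.map sg_inj), ?_⟩
    intro a ha b hb hab
    rw [List.mem_reverse, List.mem_map] at hb
    obtain ⟨z, hz, rfl⟩ := hb
    have h1 := hQ.2 a ha rfl
    have h2 := hP.2 z hz rfl
    rw [hab, F0_sg] at h1
    omega
  · unfold om HChain
    rw [List.isChain_append]
    refine ⟨hQ.1.2.2.1, ?_, ?_⟩
    · rw [List.isChain_reverse, List.isChain_map]
      exact hP.1.2.2.1.imp fun _ _ h => sg_adj h
    · intro x hx y hy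
      rw [hQ.1.2.2.2] at hx
      rw [List.head?_reverse, List.getLast?_map, hP.1.2.2.2] at hy
      simp only [Option.mem_def, Option.some.injEq, Option.map_some] at hx hy
      rw [← hx, ← hy]
      refine ⟨by decide, by decide, ?_⟩
      simp only [U, sg, o, Prod.mk_sub_mk]
      decide
  · unfold om
    rw [List.getLast?_append, List.getLast?_reverse]
    simp [stv]

/-- Two glued walks of the same type with the same image are translates of each other. -/
lemma om_shift {P Q P' Q' : List (ℤ × ℤ)} (h1 : hon (stv P)) (h2 : hon (stv P'))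
    (ht : ((stv P).1 - (stv P).2) % 3 = 0 ↔ ((stv P').1 - (stv P').2) % 3 = 0) (h : omt P Q = omt P' Q') :
    ∃ δ : ℤ × ℤ, F0 δ % 3 = 0 ∧ om P' Q' = (om P Q).map (· + δ) := by
  refine ⟨stv P' - stv P, ?_, ?_⟩
  · simp only [F0, hon, Prod.fst_sub, Prod.snd_sub] at *
    omega
  · have h3 : om P' Q' = (omt P' Q').map (tv (stv P')) := by
      unfold omt
      rw [List.map_map]
      have : (tv (stv P') ∘ tw (stv P')) = id := by funext z; simp [tv_tw]
      rw [this, List.map_id]
    rw [h3, ← h]
    unfold omt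
    rw [List.map_map]
    refine List.map_congr_left fun z _ => ?_
    simp only [Function.comp_apply]
    unfold tv tw
    by_cases h0 : ((stv P).1 - (stv P).2) % 3 = 0
    · rw [if_pos (ht.1 h0), if_pos h0]; abel
    · rw [if_neg (fun hh => h0 (ht.2 hh)), if_neg h0]; abel

lemma om_le {k l k' l' : ℕ} {P Q P' Q' : List (ℤ × ℤ)} (hP : P ∈ W true k) (hQ : Q ∈ W true l)
    (hP' : P' ∈ W true k') (hQ' : Q' ∈ W true l') (hN : NoCut P')
    (ht : ((stv P).1 - (stv P).2) % 3 = 0 ↔ ((stv P').1 - (stv P').2) % 3 = 0) (h : omt P Q = omt P' Q') :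
    k' ≤ k := by
  obtain ⟨δ, hδ, hm⟩ := om_shift (om_walk hP hQ).2 (om_walk hP' hQ').2 ht h
  unfold om at hm
  rw [List.map_append, List.append_eq_append_iff] at hm
  rcases hm with ⟨x, hx1, hx2⟩ | ⟨x, hx1, hx2⟩
  · by_cases hx : x = []
    · rw [hx, List.nil_append] at hx2
      have := congrArg List.length hx2
      simp only [List.length_reverse, List.length_map, hP.1.1, hP'.1.1] at this
      omega
    · exfalso
      have e : P' = (((P.map sg).reverse.map (· + δ)).reverse.map sg) ++ (x.reverse.map sg) := by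
        rw [← List.map_append, ← List.reverse_append, ← hx2, List.reverse_reverse, List.map_map]
        have : (sg ∘ sg) = id := by funext z; simp [sg_sg]
        rw [this, List.map_id]
      refine hN (-(F0 δ / 3)) _ _ e ⟨?_, ?_, ?_, ?_⟩
      · intro h0
        have := congrArg List.length h0
        simp only [List.length_map, List.length_reverse, List.length_nil, hP.1.1] at this
        omega
      · intro h0
        exact hx (by simpa using h0)
      · intro z hz
        rw [List.mem_map] at hz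
        obtain ⟨w, hw, rfl⟩ := hz
        rw [List.mem_reverse] at hw
        have hw2 : w ∈ Q.map (· + δ) := by rw [hx1]; exact List.mem_append_right _ hw
        rw [List.mem_map] at hw2
        obtain ⟨q, hq, rfl⟩ := hw2
        have := hQ.2 q hq rfl
        rw [F0_sg, F0_add]
        omega
      · intro z hz
        simp only [List.mem_map, List.mem_reverse] at hz
        obtain ⟨w, ⟨w', ⟨p, hp, rfl⟩, rfl⟩, rfl⟩ := hz
        have := hP.2 p hp rfl
        rw [F0_sg, F0_add, F0_sg]
        omega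
  · have := congrArg List.length hx2
    simp only [List.length_append, List.length_reverse, List.length_map, hP.1.1, hP'.1.1] at this
    omega

lemma om_inj {k l k' l' : ℕ} {P Q P' Q' : List (ℤ × ℤ)} (hP : P ∈ W true k) (hQ : Q ∈ W true l)
    (hP' : P' ∈ W true k') (hQ' : Q' ∈ W true l') (hN : NoCut P) (hN' : NoCut P')
    (ht : ((stv P).1 - (stv P).2) % 3 = 0 ↔ ((stv P').1 - (stv P').2) % 3 = 0) (h : omt P Q = omt P' Q') :
    P = P' ∧ Q = Q' := by
  have h1 := om_le hP hQ hP' hQ' hN' ht h
  have h2 := om_le hP' hQ' hP hQ hN ht.symm h.symm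
  have hk : k = k' := le_antisymm h2 h1
  subst hk
  obtain ⟨δ, -, hm⟩ := om_shift (om_walk hP hQ).2 (om_walk hP' hQ').2 ht h
  have h3 := congrArg List.length hm
  unfold om at hm h3
  simp only [List.length_append, List.length_map, List.length_reverse, hP.1.1, hQ.1.1, hP'.1.1, hQ'.1.1] at h3
  rw [List.map_append] at hm
  have h4 := List.append_inj hm (by rw [List.length_map, hQ.1.1, hQ'.1.1]; omega)
  have h5 := hQ'.1.2.2.2
  rw [h4.1, List.getLast?_map, hQ.1.2.2.2] at h5
  have h6 : o + δ = o := by simpa using h5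
  have h7 : δ = 0 := by simpa using h6
  subst h7
  simp only [add_zero, List.map_id'] at h4
  refine ⟨?_, h4.1.symm⟩
  have h8 := List.reverse_injective h4.2
  exact (List.map_injective_iff.2 sg_inj h8).symm

open Classical in
/-- Glueing along a cut line. -/
theorem glue_QS (m : ℕ) : ∑ p ∈ Finset.HasAntidiagonal.antidiagonal m, (QS p.1).ncard * cn true p.2 ≤ 2 * an (m + 1) := by
  set AF : Finset (List (ℤ × ℤ)) := (walk_finite (m + 1)).toFinset with hAF
  set QF : ℕ → Finset (List (ℤ × ℤ)) := fun k => (QS_finite k).toFinset with hQF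
  have e1 : ∑ p ∈ Finset.HasAntidiagonal.antidiagonal m, (QS p.1).ncard * cn true p.2 =
      ((Finset.HasAntidiagonal.antidiagonal m).sigma fun p => QF p.1 ×ˢ WF true p.2).card := by
    rw [Finset.card_sigma]
    refine Finset.sum_congr rfl fun p _ => ?_
    rw [Finset.card_product, hQF, ← Set.ncard_eq_toFinset_card _ (QS_finite p.1)]
    rfl
  have e2 : 2 * an (m + 1) = ((Finset.univ : Finset Bool) ×ˢ AF).card := by
    rw [Finset.card_product, hAF, ← Set.ncard_eq_toFinset_card _ (walk_finite (m + 1))]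
    rfl
  rw [e1, e2]
  refine Finset.card_le_card_of_injOn
    (fun x => (decide (((stv x.2.1).1 - (stv x.2.1).2) % 3 = 0), omt x.2.1 x.2.2)) ?_ ?_
  · rintro ⟨p, P, Q⟩ hx
    simp only [Finset.coe_sigma, Set.mem_sigma_iff, Finset.mem_coe, Finset.HasAntidiagonal.mem_antidiagonal, hQF,
      Finset.mem_product, Set.Finite.mem_toFinset] at hx
    simp only [Finset.coe_product, Finset.coe_univ, Set.mem_prod, Set.mem_univ, true_and, Finset.mem_coe, hAF,
      Set.Finite.mem_toFinset]
    have := (om_walk hx.2.1.1 (mem_WF.1 hx.2.2)).1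
    rw [hx.1] at this
    exact this
  · rintro ⟨p, P, Q⟩ hx ⟨p', P', Q'⟩ hx' h
    simp only [Finset.coe_sigma, Set.mem_sigma_iff, Finset.mem_coe, Finset.HasAntidiagonal.mem_antidiagonal, hQF,
      Finset.mem_product, Set.Finite.mem_toFinset] at hx hx'
    simp only [Prod.mk.injEq, decide_eq_decide] at h
    obtain ⟨h1, h2⟩ := om_inj hx.2.1.1 (mem_WF.1 hx.2.2) hx'.2.1.1 (mem_WF.1 hx'.2.2) hx.2.1.2 hx'.2.1.2 h.1 h.2
    subst h1 h2
    have h3 : p.1 = p'.1 := by
      have a := hx.2.1.1.1.1
      have b := hx'.2.1.1.1.1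
      omega
    have h4 : p = p' := by
      refine Prod.ext h3 ?_
      have := hx.1
      have := hx'.1
      omega
    subst h4
    rfl

lemma noCut_of {n : ℕ} {X : List Bool} (h : HwN n X) (hr : ∀ i, 1 ≤ i → ¬ Ren i X) : NoCut (V X).reverse := by
  rintro k v u e ⟨hv, hu, h1, h2⟩
  have e' : V X = u.reverse ++ v.reverse := by rw [← List.reverse_append, ← e, List.reverse_reverse]
  have hl : ∀ Y : List Bool, (V Y).length = Y.length + 1 := fun Y => by unfold V; rw [vs_length]
  have hul : 1 ≤ u.length := List.length_pos_iff.2 hu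
  have hvl : 1 ≤ v.length := List.length_pos_iff.2 hv
  have hX : X.length + 1 = u.length + v.length := by
    rw [← hl X, e', List.length_append, List.length_reverse, List.length_reverse]
  obtain ⟨b, W2, hb⟩ : ∃ b W2, X.drop (u.length - 1) = b :: W2 := by
    refine List.exists_cons_of_ne_nil fun h0 => ?_
    rw [List.drop_eq_nil_iff] at h0
    omega
  have hX2 : X = X.take (u.length - 1) ++ b :: W2 := by rw [← hb, List.take_append_drop]
  have hV := V_append (X.take (u.length - 1)) b W2
  rw [← hX2] at hV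
  have h3 := List.append_inj (hV.symm.trans e') (by
    rw [hl, List.length_take, List.length_reverse]
    omega)
  obtain ⟨z, hz⟩ := List.exists_mem_of_ne_nil u hu
  have hk : 0 < k := by
    have a := h1 z hz
    have c := h.2.2 z (by rw [e']; exact List.mem_append_left _ (List.mem_reverse.2 hz))
    omega
  refine hr k.toNat (by omega) ⟨X.take (u.length - 1), b, W2, hX2, ?_, ?_⟩
  · intro z hz
    rw [h3.1, List.mem_reverse] at hz
    have := h1 z hz
    omega
  · intro z hz
    rw [h3.2, List.mem_reverse] at hz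
    have := h2 z hz
    omega

theorem qi_le (n : ℕ) : qi n ≤ (QS n).ncard := by
  have e : qi n = Set.ncard {W : List Bool | (Hw W ∧ ∀ i, 1 ≤ i → ¬ Ren i W) ∧ W.length = n} := rfl
  rw [e]
  refine Set.ncard_le_ncard_of_injOn (fun W => (V W).reverse) ?_ ?_ (QS_finite n)
  · rintro W ⟨⟨h1, h2⟩, h3⟩
    have h4 : HwN n W := ⟨h3, h1.1, h1.2⟩
    exact ⟨hw_walk h4, noCut_of h4 h2⟩
  · intro W _ W' _ h
    exact V_inj (List.reverse_injective h)

/-- (5), unnormalised. -/
theorem glue_le (m : ℕ) : ∑ p ∈ Finset.HasAntidiagonal.antidiagonal m, qi p.1 * cn true p.2 ≤ 2 * an (m + 1) :=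
  (Finset.sum_le_sum fun p _ => Nat.mul_le_mul_right _ (qi_le p.1)).trans (glue_QS m)

/-- (5) with real coefficients, for `low_inst`. -/
theorem glue_real (m : ℕ) :
    ((∑ p ∈ Finset.HasAntidiagonal.antidiagonal m, qi p.1 * cn true p.2 : ℕ) : ℝ) ≤ 2 * an (m + 1) := by
  exact_mod_cast glue_le m

end Pool.Agent.RAT
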