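import Pool.Agent.RAT.U.BDefs
import Pool.Agent.HEP.GTot

/-!
(U5): bridges are sequences of irreducible bridges; the total mass of the irreducible bridges is at most one.
-/

namespace Pool.Agent.RAT

open Pool.Agent.Hhelper14.SAW Pool.Agent.HHP Pool.Agent.HEP
open scoped ENNReal

lemma len_fin (n : ℕ) : {W : List Bool | W.length = n}.Finite := List.finite_length_eq Bool n

lemma len_fin' (n : ℕ) : {W : List Bool | W.length + 1 = n}.Finite :=
  (len_fin (n - 1)).subset fun W h => by
    simp only [Set.mem_ofPred_eq] at h ⊢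
    omega

/-- Bridges with `n` vertices, with the empty one. -/
def Bs (n : ℕ) : Set (List Bool) := if n = 0 then {[]} else {W | (∃ k, Br k W) ∧ W.length + 1 = n}

/-- Irreducible bridges with `n` vertices. -/
def Is (n : ℕ) : Set (List Bool) := {W | Irr W ∧ W.length + 1 = n}

lemma be_eq (n : ℕ) : be n = (Bs n).ncard := by
  unfold be Bs
  split_ifs with h
  · simp
  · rfl

lemma io_eq (n : ℕ) : io n = (Is n).ncard := rfl

lemma Bs_finite (n : ℕ) : (Bs n).Finite := by
  unfold Bs
  split_ifs with h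
  · exact Set.finite_singleton _
  · exact (len_fin' n).subset fun _ h => h.2

lemma Is_finite (n : ℕ) : (Is n).Finite := (len_fin' n).subset fun _ h => h.2

lemma not_Br_nil (k : ℕ) : ¬ Br k [] := by
  rintro ⟨-, h⟩
  simp only [E, ep, F0] at h
  omega

/-- (6) -/
theorem be_le (n : ℕ) : be n ≤ (if n = 0 then 1 else 0) +
    ∑ p ∈ Finset.HasAntidiagonal.antidiagonal n, io p.1 * be p.2 := by
  classical
  by_cases h0 : n = 0
  · subst h0; simp [be]
  rw [if_neg h0, zero_add, be_eq]
  have key : Bs n ⊆ ⋃ p ∈ Finset.HasAntidiagonal.antidiagonal n,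
      (fun q : List Bool × List Bool => if q.2 = [] then q.1 else q.1 ++ rt q.1 :: q.2) '' (Is p.1 ×ˢ Bs p.2) := by
    intro W hW
    unfold Bs at hW
    rw [if_neg h0] at hW
    obtain ⟨⟨k, hk⟩, hlen⟩ := hW
    obtain ⟨l, hl, hj, -⟩ := jn_surj hk
    simp only [Set.mem_iUnion, Set.mem_image, Finset.HasAntidiagonal.mem_antidiagonal]
    match l, hl with
    | [c], _ =>
      rw [jn_single] at hj
      refine ⟨(n, 0), by simp, (c.1, []), ⟨⟨c.2, by rw [hj]; exact hlen⟩, by simp [Bs]⟩, ?_⟩
      simp [hj]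
    | c :: d :: l, _ =>
      have hne : d :: l ≠ [] := by simp
      rw [jn_cons hne] at hj
      have hb := jn_Br hne
      have hnn : jn (d :: l) ≠ [] := by
        intro h
        rw [h] at hb
        exact not_Br_nil _ hb
      have hL : W.length = c.1.length + ((jn (d :: l)).length + 1) := by
        rw [← hj]; simp
      refine ⟨(c.1.length + 1, (jn (d :: l)).length + 1), ?_, (c.1, jn (d :: l)), ⟨⟨c.2, rfl⟩, ?_⟩, ?_⟩
      · simp only; omega
      · unfold Bs
        rw [if_neg (by simp)]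
        exact ⟨⟨_, hb⟩, rfl⟩
      · simp only [hnn, if_false]
        exact hj
  have hf : ∀ p ∈ Finset.HasAntidiagonal.antidiagonal n,
      ((fun q : List Bool × List Bool => if q.2 = [] then q.1 else q.1 ++ rt q.1 :: q.2) '' (Is p.1 ×ˢ Bs p.2)).Finite :=
    fun p _ => ((Is_finite _).prod (Bs_finite _)).image _
  refine (Set.ncard_le_ncard key (Set.Finite.biUnion (Finset.finite_toSet _) hf)).trans ?_
  refine (Finset.set_ncard_biUnion_le _ _).trans (Finset.sum_le_sum fun p _ => ?_)
  rw [io_eq, be_eq, ← Set.ncard_prod]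
  exact Set.ncard_image_le ((Is_finite _).prod (Bs_finite _))

private lemma io_mass (i : ℕ) : (io i : ℝ≥0∞) * xE ^ i =
    ∑' c : Blk, Set.indicator {c : Blk | c.1.length + 1 = i} (fun c => xE ^ (c.1.length + 1)) c := by
  rw [← tsum_subtype]
  have hfin : Finite {c : Blk | c.1.length + 1 = i} := by
    have : ({c : Blk | c.1.length + 1 = i} : Set Blk) = Subtype.val ⁻¹' {W : List Bool | W.length + 1 = i} := rfl
    rw [this]
    exact ((len_fin' i).preimage Subtype.val_injective.injOn).to_subtype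
  have := Fintype.ofFinite {c : Blk | c.1.length + 1 = i}
  rw [tsum_fintype]
  have e : ∀ c ∈ (Finset.univ : Finset {c : Blk | c.1.length + 1 = i}), xE ^ (c.1.1.length + 1) = xE ^ i := by
    intro c _
    rw [c.2]
  rw [Finset.sum_congr rfl e, Finset.sum_const, nsmul_eq_mul, Finset.card_univ, ← Nat.card_eq_fintype_card]
  congr 2
  unfold io
  exact (Nat.card_congr (Equiv.subtypeSubtypeEquivSubtypeInter (fun W => Irr W) (fun W => W.length + 1 = i))).symm

private lemma io_sumE (N : ℕ) : ∑ i ∈ Finset.range N, (io i : ℝ≥0∞) * xE ^ i ≤ 1 := by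
  rw [← blk_tot]
  simp_rw [io_mass]
  rw [← Summable.tsum_finsetSum (fun _ _ => ENNReal.summable)]
  refine ENNReal.tsum_le_tsum fun c => ?_
  have e : ∀ i ∈ Finset.range N, Set.indicator {c : Blk | c.1.length + 1 = i} (fun c => xE ^ (c.1.length + 1)) c =
      if c.1.length + 1 = i then xE ^ (c.1.length + 1) else 0 := by
    intro i _
    rw [Set.indicator_apply]
    rfl
  rw [Finset.sum_congr rfl e, Finset.sum_ite_eq]
  split_ifs
  · exact le_rfl
  · exact zero_le

/-- (7) -/
theorem io_sum_le (N : ℕ) : ∑ i ∈ Finset.range N, (io i : ℝ) / mu ^ i ≤ 1 := by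
  have h := io_sumE N
  have e : ∑ i ∈ Finset.range N, (io i : ℝ≥0∞) * xE ^ i =
      ENNReal.ofReal (∑ i ∈ Finset.range N, (io i : ℝ) / mu ^ i) := by
    have hx := xc_pos
    have e1 : ∀ i, (io i : ℝ) / mu ^ i = (io i : ℝ) * xc ^ i := by
      intro i
      unfold xc
      rw [one_div, inv_pow, div_eq_mul_inv]
    simp_rw [e1]
    rw [ENNReal.ofReal_sum_of_nonneg (fun i _ => by positivity)]
    refine Finset.sum_congr rfl fun i _ => ?_
    rw [ENNReal.ofReal_mul (Nat.cast_nonneg _), ENNReal.ofReal_natCast, ENNReal.ofReal_pow hx.le]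
    rfl
  rw [e] at h
  exact ENNReal.ofReal_le_one.1 h

theorem io_two : 1 ≤ io 2 := by
  rw [io_eq, Nat.succ_le_iff, Set.ncard_pos (Is_finite 2)]
  refine ⟨[true], ⟨0, ⟨⟨by decide, ?_⟩, by decide⟩, fun i h1 h2 => by omega⟩, rfl⟩
  decide

end Pool.Agent.RAT
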