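import Pool.Agent.RAT.U.BDefs
import Pool.Agent.RAT.H.Words

/-!
RAT: the number of half-plane words is the number of half-plane walks.
-/

namespace Pool.Agent.RAT

open Pool.Agent.Hhelper14.SAW Pool.Agent.HHP Pool.Agent.HEP

theorem hw_eq (n : ℕ) : hw n = cn true n := by
  rw [cn_true]
  unfold hw
  have h : {X : List Bool | HwN n X} = {W : List Bool | Hw W ∧ W.length = n} := by
    ext X
    exact ⟨fun h => ⟨⟨h.2.1, h.2.2⟩, h.1⟩, fun h => ⟨h.2, h.1.1, h.1.2⟩⟩
  rw [h]
  rfl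

end Pool.Agent.RAT
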